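import Pool.Agent.Helper188.NCM.Stmts

/-! TaskWeyl of project H188-NCM: Weyl's bound for quadratic phases with irrational leading
coefficient, uniformly in the linear coefficient. -/

set_option autoImplicit false

open Finset

namespace Pool.Agent.H201R3.NCM

open Pool.Agent.Helper188.NCM

theorem ee_add (x y : ℝ) : ee (x + y) = ee x * ee y := by
  unfold ee
  rw [← Complex.exp_add]
  congr 1
  push_cast
  ring

theorem norm_ee (x : ℝ) : ‖ee x‖ = 1 := by
  unfold ee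
  have h : (2 * Real.pi * Complex.I * x : ℂ) = ((2 * Real.pi * x : ℝ) : ℂ) * Complex.I := by
    push_cast
    ring
  rw [h]
  exact Complex.norm_exp_ofReal_mul_I _

theorem star_ee (x : ℝ) : star (ee x) = ee (-x) := by
  unfold ee
  rw [Complex.star_def, ← Complex.exp_conj]
  congr 1
  simp only [map_mul, Complex.conj_I, Complex.conj_ofReal, map_ofNat]
  push_cast
  ring

theorem ee_mul_nat (x : ℝ) (n : ℕ) : ee (n * x) = ee x ^ n := by
  unfold ee
  rw [← Complex.exp_nat_mul]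
  congr 1
  push_cast
  ring

theorem ee_ne_one {x : ℝ} (hx : ∀ m : ℤ, x ≠ m) : ee x ≠ 1 := by
  unfold ee
  intro h
  rw [Complex.exp_eq_one_iff] at h
  obtain ⟨m, hm⟩ := h
  apply hx m
  have h2 : (2 * Real.pi * Complex.I : ℂ) ≠ 0 := by
    simp [Real.pi_ne_zero]
  have h3 : (x : ℂ) = (m : ℂ) := by
    have h4 : (2 * Real.pi * Complex.I : ℂ) * x = (2 * Real.pi * Complex.I : ℂ) * m := by
      rw [hm]
      ring
    exact mul_left_cancel₀ h2 h4
  exact_mod_cast h3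

theorem geom_bound {r : ℂ} (hr : ‖r‖ = 1) (h1 : r ≠ 1) (N : ℕ) :
    ‖∑ n ∈ range N, r ^ n‖ ≤ 2 / ‖r - 1‖ := by
  rw [geom_sum_eq h1, norm_div]
  apply div_le_div_of_nonneg_right _ (norm_nonneg _)
  calc ‖r ^ N - 1‖ ≤ ‖r ^ N‖ + ‖(1 : ℂ)‖ := norm_sub_le _ _
    _ = 2 := by
        rw [norm_pow, hr]
        norm_num

theorem shift_bound (u : ℕ → ℂ) (hu : ∀ n, ‖u n‖ ≤ 1) (N h : ℕ) :
    ‖∑ n ∈ range N, u n - ∑ n ∈ range N, u (n + h)‖ ≤ 2 * h := by
  induction h with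
  | zero => simp
  | succ h ih =>
    have e : ∑ n ∈ range N, u (n + (h + 1)) =
        ∑ n ∈ range N, u (n + h) + (u (N + h) - u h) := by
      have h1 := Finset.sum_range_succ (fun n => u (n + h)) N
      have h2 := Finset.sum_range_succ' (fun n => u (n + h)) N
      rw [h1] at h2
      simp only [Nat.zero_add] at h2
      have h3 : ∑ n ∈ range N, u (n + (h + 1)) = ∑ n ∈ range N, u (n + 1 + h) := by
        apply Finset.sum_congr rfl
        intro n _
        congr 1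
        ring
      rw [h3]
      linear_combination -h2
    rw [e]
    have e2 : ∑ n ∈ range N, u n - (∑ n ∈ range N, u (n + h) + (u (N + h) - u h)) =
        (∑ n ∈ range N, u n - ∑ n ∈ range N, u (n + h)) - (u (N + h) - u h) := by ring
    rw [e2]
    calc _ ≤ ‖∑ n ∈ range N, u n - ∑ n ∈ range N, u (n + h)‖ + ‖u (N + h) - u h‖ :=
          norm_sub_le _ _
      _ ≤ 2 * h + (‖u (N + h)‖ + ‖u h‖) := add_le_add ih (norm_sub_le _ _)
      _ ≤ 2 * h + (1 + 1) := by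
          have := hu (N + h)
          have := hu h
          linarith
      _ = 2 * ((h + 1 : ℕ) : ℝ) := by
          push_cast
          ring

/-- the correlation sums of the quadratic phases -/
theorem corr_bound (A : ℝ) (hA : Irrational A) (B : ℝ) (N h h' : ℕ) (hne : h ≠ h') :
    ‖∑ n ∈ range N, ee (A * ((n + h : ℕ) : ℝ) ^ 2 + B * ((n + h : ℕ) : ℝ)) *
      star (ee (A * ((n + h' : ℕ) : ℝ) ^ 2 + B * ((n + h' : ℕ) : ℝ)))‖ ≤
      2 / ‖ee (2 * A * ((h : ℝ) - h')) - 1‖ := by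
  have e : ∀ n : ℕ, ee (A * ((n + h : ℕ) : ℝ) ^ 2 + B * ((n + h : ℕ) : ℝ)) *
      star (ee (A * ((n + h' : ℕ) : ℝ) ^ 2 + B * ((n + h' : ℕ) : ℝ))) =
      ee (A * ((h : ℝ) ^ 2 - (h' : ℝ) ^ 2) + B * ((h : ℝ) - h')) *
        ee (2 * A * ((h : ℝ) - h')) ^ n := by
    intro n
    rw [star_ee, ← ee_add, ← ee_mul_nat, ← ee_add]
    congr 1
    push_cast
    ring
  rw [Finset.sum_congr rfl (fun n _ => e n), ← Finset.mul_sum, norm_mul, norm_ee, one_mul]
  apply geom_bound (norm_ee _)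
  apply ee_ne_one
  intro m hm
  apply hA
  have hd : ((h : ℝ) - h') ≠ 0 := by
    intro h0
    apply hne
    have : (h : ℝ) = h' := by linarith
    exact_mod_cast this
  refine ⟨(m : ℚ) / (2 * ((h : ℚ) - h')), ?_⟩
  push_cast
  rw [← hm]
  field_simp

theorem weyl_aux (A : ℝ) (hA : Irrational A) (H : ℕ) : ∃ C : ℝ, 0 ≤ C ∧ ∀ (N : ℕ) (B : ℝ),
    ‖∑ n ∈ range N, ∑ h ∈ range H, ee (A * ((n + h : ℕ) : ℝ) ^ 2 + B * ((n + h : ℕ) : ℝ))‖ ^ 2 ≤
      N * (H * N + C) := by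
  refine ⟨∑ h ∈ range H, ∑ h' ∈ range H, 2 / ‖ee (2 * A * ((h : ℝ) - h')) - 1‖,
    Finset.sum_nonneg (fun _ _ => Finset.sum_nonneg (fun _ _ => by positivity)), ?_⟩
  intro N B
  set u : ℕ → ℂ := fun n => ee (A * (n : ℝ) ^ 2 + B * (n : ℝ)) with hu
  set v : ℕ → ℂ := fun n => ∑ h ∈ range H, u (n + h) with hv
  have h1 : ‖∑ n ∈ range N, v n‖ ^ 2 ≤ N * ∑ n ∈ range N, ‖v n‖ ^ 2 := by
    calc ‖∑ n ∈ range N, v n‖ ^ 2 ≤ (∑ n ∈ range N, ‖v n‖) ^ 2 := by
          apply pow_le_pow_left₀ (norm_nonneg _) (norm_sum_le _ _)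
      _ ≤ (range N).card * ∑ n ∈ range N, ‖v n‖ ^ 2 := sq_sum_le_card_mul_sum_sq
      _ = N * ∑ n ∈ range N, ‖v n‖ ^ 2 := by rw [card_range]
  have h2 : ((∑ n ∈ range N, ‖v n‖ ^ 2 : ℝ) : ℂ) =
      ∑ h ∈ range H, ∑ h' ∈ range H, ∑ n ∈ range N, u (n + h) * star (u (n + h')) := by
    have e : ∀ n, ((‖v n‖ ^ 2 : ℝ) : ℂ) =
        ∑ h ∈ range H, ∑ h' ∈ range H, u (n + h) * star (u (n + h')) := by
      intro n
      have e1 : ((‖v n‖ ^ 2 : ℝ) : ℂ) = v n * star (v n) := by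
        rw [Complex.star_def, Complex.mul_conj, Complex.normSq_eq_norm_sq]
      rw [e1, hv]
      simp only [star_sum]
      rw [Finset.sum_mul_sum]
    push_cast
    have e' : ∀ n, ((‖v n‖ : ℂ)) ^ 2 =
        ∑ h ∈ range H, ∑ h' ∈ range H, u (n + h) * star (u (n + h')) := by
      intro n
      rw [← e n]
      push_cast
      rfl
    rw [Finset.sum_congr rfl (fun n _ => e' n), Finset.sum_comm]
    apply Finset.sum_congr rfl
    intro h _
    rw [Finset.sum_comm]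
  have h3 : ∑ n ∈ range N, ‖v n‖ ^ 2 ≤
      ∑ h ∈ range H, ∑ h' ∈ range H,
        ((if h = h' then (N : ℝ) else 0) + 2 / ‖ee (2 * A * ((h : ℝ) - h')) - 1‖) := by
    have h4 : ∑ n ∈ range N, ‖v n‖ ^ 2 = ‖((∑ n ∈ range N, ‖v n‖ ^ 2 : ℝ) : ℂ)‖ := by
      rw [Complex.norm_real, Real.norm_of_nonneg]
      exact Finset.sum_nonneg (fun _ _ => by positivity)
    rw [h4, h2]
    refine (norm_sum_le _ _).trans (Finset.sum_le_sum fun h _ => ?_)
    refine (norm_sum_le _ _).trans (Finset.sum_le_sum fun h' _ => ?_)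
    split_ifs with hh
    · subst hh
      have h5 : ‖∑ n ∈ range N, u (n + h) * star (u (n + h))‖ ≤ N := by
        calc _ ≤ ∑ n ∈ range N, ‖u (n + h) * star (u (n + h))‖ := norm_sum_le _ _
          _ = ∑ n ∈ range N, (1 : ℝ) := by
              apply Finset.sum_congr rfl
              intro n _
              rw [norm_mul, norm_star]
              simp only [hu]
              rw [norm_ee]
              norm_num
          _ = N := by simp
      have : (0:ℝ) ≤ 2 / ‖ee (2 * A * ((h : ℝ) - h)) - 1‖ := by positivity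
      linarith
    · have := corr_bound A hA B N h h' hh
      simp only [hu]
      linarith
  have h6 : ∑ h ∈ range H, ∑ h' ∈ range H,
        ((if h = h' then (N : ℝ) else 0) + 2 / ‖ee (2 * A * ((h : ℝ) - h')) - 1‖) =
      H * N + ∑ h ∈ range H, ∑ h' ∈ range H, 2 / ‖ee (2 * A * ((h : ℝ) - h')) - 1‖ := by
    simp only [Finset.sum_add_distrib]
    congr 1
    have : ∀ h ∈ range H, ∑ h' ∈ range H, (if h = h' then (N : ℝ) else 0) = N := by
      intro h hh
      rw [Finset.sum_ite_eq]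
      simp [hh]
    rw [Finset.sum_congr rfl this]
    simp
  calc ‖∑ n ∈ range N, v n‖ ^ 2 ≤ N * ∑ n ∈ range N, ‖v n‖ ^ 2 := h1
    _ ≤ _ := by
      rw [← h6]
      exact mul_le_mul_of_nonneg_left h3 (Nat.cast_nonneg N)

theorem taskWeyl : TaskWeyl := by
  intro A hA ε hε
  obtain ⟨H, hH⟩ := exists_nat_ge (8 / ε ^ 2 + 1)
  have hH1 : (1:ℝ) ≤ H := by
    have : 0 ≤ 8 / ε ^ 2 := by positivity
    linarith
  have hH0 : (0:ℝ) < H := by linarith
  have hHe : 8 / ε ^ 2 ≤ H := by linarith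
  obtain ⟨C, hC0, hC⟩ := weyl_aux A hA H
  obtain ⟨N₀, hN₀⟩ := exists_nat_ge (max C (4 * H / ε))
  refine ⟨N₀, fun N hN B => ?_⟩
  have hNr : (N₀ : ℝ) ≤ N := by exact_mod_cast hN
  have hNC : C ≤ N := (le_max_left _ _).trans (hN₀.trans hNr)
  have hNH : 4 * H / ε ≤ N := (le_max_right _ _).trans (hN₀.trans hNr)
  have hN0 : (0:ℝ) ≤ N := Nat.cast_nonneg N
  set u : ℕ → ℂ := fun n => ee (A * (n : ℝ) ^ 2 + B * (n : ℝ)) with hu
  have hun : ∀ n, ‖u n‖ ≤ 1 := fun n => (norm_ee _).le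
  set S := ∑ n ∈ range N, u n with hS
  set T := ∑ n ∈ range N, ∑ h ∈ range H, u (n + h) with hT
  have hTn : ‖T‖ ^ 2 ≤ (N * (ε / 2 * H)) ^ 2 := by
    have h1 := hC N B
    have h2 : (N : ℝ) * (H * N + C) ≤ N * (N * (2 * H)) := by
      apply mul_le_mul_of_nonneg_left _ hN0
      nlinarith
    have h3 : (2 : ℝ) * H ≤ (ε / 2 * H) ^ 2 := by
      have h4 : 8 ≤ H * ε ^ 2 := by
        rwa [div_le_iff₀ (by positivity)] at hHe
      nlinarith
    calc ‖T‖ ^ 2 ≤ N * (H * N + C) := h1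
      _ ≤ N * (N * (2 * H)) := h2
      _ = N ^ 2 * (2 * H) := by ring
      _ ≤ N ^ 2 * (ε / 2 * H) ^ 2 := mul_le_mul_of_nonneg_left h3 (by positivity)
      _ = _ := by ring
  have hTn' : ‖T‖ ≤ N * (ε / 2 * H) := by
    exact le_of_sq_le_sq hTn (by positivity)
  have hshift : ‖H * S - T‖ ≤ H * (2 * H) := by
    have e1 : (H : ℂ) * S - T = ∑ h ∈ range H, (S - ∑ n ∈ range N, u (n + h)) := by
      rw [Finset.sum_sub_distrib, hT, Finset.sum_comm]
      simp
    rw [e1]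
    calc _ ≤ ∑ h ∈ range H, ‖S - ∑ n ∈ range N, u (n + h)‖ := norm_sum_le _ _
      _ ≤ ∑ h ∈ range H, (2 * (H : ℝ)) := by
          apply Finset.sum_le_sum
          intro h hh
          have h5 := shift_bound u hun N h
          have h6 : (h : ℝ) ≤ H := by exact_mod_cast (Finset.mem_range.mp hh).le
          linarith
      _ = H * (2 * H) := by simp
  have hHS : H * ‖S‖ ≤ N * (ε / 2 * H) + H * (2 * H) := by
    have h7 : H * ‖S‖ = ‖(H : ℂ) * S‖ := by
      rw [norm_mul]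
      simp
    rw [h7]
    calc ‖(H : ℂ) * S‖ = ‖T + (H * S - T)‖ := by
          congr 1
          ring
      _ ≤ ‖T‖ + ‖H * S - T‖ := norm_add_le _ _
      _ ≤ _ := add_le_add hTn' hshift
  have h8 : ‖S‖ ≤ N * (ε / 2) + 2 * H := by
    have h9 : (H : ℝ) * ‖S‖ ≤ H * (N * (ε / 2) + 2 * H) := by
      calc _ ≤ _ := hHS
        _ = _ := by ring
    exact le_of_mul_le_mul_left h9 hH0
  have h10 : 2 * (H : ℝ) ≤ ε / 2 * N := by
    rw [div_le_iff₀ hε] at hNH
    linarith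
  calc ‖S‖ ≤ N * (ε / 2) + 2 * H := h8
    _ ≤ N * (ε / 2) + ε / 2 * N := by linarith
    _ = ε * N := by ring

end Pool.Agent.H201R3.NCM
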